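import Mathlib
import Pool.Agent.H80.PinDefs
import Pool.Agent.H80.Pin2.Defs
import Pool.Agent.H80.Pin2.Inst

set_option autoImplicit false

namespace Pool.Agent.Results.MP_4842e4_lc.ExactThreshold

open Pool.Agent.H80.Pin Pool.Agent.H80.Pin2

/-- **Q1 has a positive answer, with the exact threshold `α = 1/2`.** Feasibility of the instances
with frequency divisibility and density at most `1/2` is decidable in polynomial time; for every
`ε > 0`, Partition reduces in polynomial time to feasibility of instances with frequency
divisibility and density at most `1/2 + ε`. -/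
theorem result :
    (∃ A : Inst → Bool,
      Nonempty (Turing.TM2ComputableInPolyTime Inst.encode Computability.encodeBool A) ∧
      ∀ V : Inst, V.FreqDiv → V.density ≤ 1 / 2 → (A V = true ↔ V.Feasible)) ∧
    (∀ ε : ℚ, 0 < ε → ∃ f : PartInst → Inst,
      Nonempty (Turing.TM2ComputableInPolyTime PartInst.encode Inst.encode f) ∧
      ∀ P : PartInst, (f P).FreqDiv ∧ (f P).density ≤ 1 / 2 + ε ∧
        ((f P).Feasible ↔ P.Solvable)) :=
  ⟨alg_half, hard_half⟩

end Pool.Agent.Results.MP_4842e4_lc.ExactThreshold
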